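import Mathlib
import Pool.Agent.V1123.WreathAsym

set_option autoImplicit false

namespace Pool.Agent.Results.MP_3fb3e0_al.IntUpper

open Pool.Agent.V1123.Wreath
open scoped ENNReal

/-- For every `k ≥ 1` the conjugacy depth of the wreath product of `ℤ` by `ℤ^k` is dominated by
`(log n) ^ (n ^ (2 k))`. -/
theorem result (k : ℕ) (hk : 1 ≤ k) (S : Finset (Wr ℤ (Fin k → ℤ))) :
    ∃ C : ℕ, 0 < C ∧ ∀ n : ℕ, ((conjDepth S n : ℕ∞) : ℝ≥0∞) ≤
      ENNReal.ofReal (C * (Real.log ((C * n : ℕ) : ℝ)) ^ ((C * n) ^ (2 * k))) := by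
  obtain ⟨C, hC⟩ := conjDepth_Z k S
  refine ⟨8 * (C + 1), by positivity, fun n => ?_⟩
  have h1 : ((conjDepth S n : ℕ∞) : ℝ≥0∞) ≤ (((n + 2) ^ (C * n) : ℕ) : ℝ≥0∞) := by
    have := ENat.toENNReal_le.2 (hC n)
    rwa [ENat.toENNReal_coe] at this
  refine h1.trans ?_
  rw [← ENNReal.ofReal_natCast]
  apply ENNReal.ofReal_le_ofReal
  have hC1 : (1 : ℝ) ≤ ((8 * (C + 1) : ℕ) : ℝ) := by
    have : 1 ≤ 8 * (C + 1) := by omega
    exact_mod_cast this
  rcases Nat.eq_zero_or_pos n with rfl | hn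
  · have hk0 : 2 * k ≠ 0 := by omega
    simp only [mul_zero, pow_zero, Nat.cast_one, zero_pow hk0, mul_one]
    exact hC1
  · have h2 := upper_compare C n (2 * k) (by omega) hn
    have h3 : (2 : ℝ) ≤ Real.log ((8 * (C + 1) * n : ℕ) : ℝ) := by
      have h4 : (8 : ℝ) ≤ ((8 * (C + 1) * n : ℕ) : ℝ) := by
        have : 8 ≤ 8 * (C + 1) * n := by
          rw [mul_assoc]; exact Nat.le_mul_of_pos_right _ (by positivity)
        exact_mod_cast this
      have h5 : (2 : ℝ) ≤ Real.log 8 := by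
        rw [show (8 : ℝ) = 2 ^ 3 by norm_num, Real.log_pow]
        have := Real.log_two_gt_d9
        push_cast; linarith
      exact h5.trans (Real.log_le_log (by norm_num) h4)
    have h6 : (((n + 2) ^ (C * n) : ℕ) : ℝ) ≤ (2 : ℝ) ^ ((2 * (C + 1) * n) ^ (2 * k)) := by
      exact_mod_cast h2
    calc (((n + 2) ^ (C * n) : ℕ) : ℝ) ≤ (2 : ℝ) ^ ((2 * (C + 1) * n) ^ (2 * k)) := h6
      _ ≤ (2 : ℝ) ^ ((8 * (C + 1) * n) ^ (2 * k)) := by
          apply pow_le_pow_right₀ (by norm_num)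
          apply Nat.pow_le_pow_left
          apply Nat.mul_le_mul_right
          omega
      _ ≤ (Real.log ((8 * (C + 1) * n : ℕ) : ℝ)) ^ ((8 * (C + 1) * n) ^ (2 * k)) :=
          pow_le_pow_left₀ (by norm_num) h3 _
      _ ≤ ((8 * (C + 1) : ℕ) : ℝ) *
          (Real.log ((8 * (C + 1) * n : ℕ) : ℝ)) ^ ((8 * (C + 1) * n) ^ (2 * k)) :=
          le_mul_of_one_le_left (by positivity) hC1

end Pool.Agent.Results.MP_3fb3e0_al.IntUpper
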