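import Mathlib
import Pool.Agent.V1123.WreathAsym

set_option autoImplicit false

namespace Pool.Agent.Results.MP_3fb3e0_al.LampUpper

open Pool.Agent.V1123.Wreath

/-- For every prime `p` and every `k ≥ 1` the conjugacy depth of the wreath product of the field
with `p` elements by `ℤ^k` is dominated by `2 ^ (n ^ k)`. -/
theorem result (p : ℕ) [Fact p.Prime] (k : ℕ) (hk : 1 ≤ k)
    (S : Finset (Wr (ZMod p) (Fin k → ℤ))) :
    ∃ C : ℕ, 0 < C ∧ ∀ n : ℕ, conjDepth S n ≤ ((C * 2 ^ ((C * n) ^ k) : ℕ) : ℕ∞) := by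
  rcases Nat.eq_or_lt_of_le hk with rfl | hk2
  · obtain ⟨C, hC, h⟩ := conjDepth_one p S
    refine ⟨C, hC, fun n => ?_⟩
    rw [pow_one]
    exact h n
  · obtain ⟨C, hC⟩ := conjDepth_Fp p k S
    refine ⟨2 * (C + 1), by positivity, fun n => (hC n).trans ?_⟩
    have h : (n + 2) ^ (C * n) ≤ 2 * (C + 1) * 2 ^ ((2 * (C + 1) * n) ^ k) := by
      have h2 : 2 ^ ((2 * (C + 1) * n) ^ k) ≤ 2 * (C + 1) * 2 ^ ((2 * (C + 1) * n) ^ k) :=
        Nat.le_mul_of_pos_left _ (by positivity)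
      refine le_trans ?_ h2
      rcases Nat.eq_zero_or_pos n with rfl | hn
      · simpa using Nat.one_le_two_pow
      · exact upper_compare C n k hk2 hn
    exact_mod_cast h

end Pool.Agent.Results.MP_3fb3e0_al.LampUpper
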